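import Mathlib
import Pool.Agent.Lib.MP_ad4c49_an.Pos

namespace Pool.Agent.Results.MP_ad4c49_an.ReflexiveExample

/-- `X` answers the kernel problem positively: every closed subspace of `X` is the kernel of a
bounded operator `X → X`. -/
def KernelPositive (𝕜 X : Type) [RCLike 𝕜] [NormedAddCommGroup X] [NormedSpace 𝕜 X] : Prop :=
  ∀ Y : Submodule 𝕜 X, IsClosed (Y : Set X) →
    ∃ T : X →L[𝕜] X, LinearMap.ker (T : X →ₗ[𝕜] X) = Y

/-- `X` is reflexive: the canonical map of `X` into its bidual is surjective. -/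
def IsReflexive (𝕜 X : Type) [RCLike 𝕜] [NormedAddCommGroup X] [NormedSpace 𝕜 X] : Prop :=
  Function.Surjective (NormedSpace.inclusionInDoubleDual 𝕜 X)

/-- There is a reflexive Banach space answering the kernel problem negatively whose dual answers
it positively. -/
theorem result (𝕜 : Type) [RCLike 𝕜] :
    ∃ (X : Type) (_ : NormedAddCommGroup X) (_ : NormedSpace 𝕜 X), CompleteSpace X ∧
      IsReflexive 𝕜 X ∧ ¬ KernelPositive 𝕜 X ∧ KernelPositive 𝕜 (StrongDual 𝕜 X) := by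
  obtain ⟨S⟩ := Pool.Agent.Lib.MP_ad4c49_an.exists_seqSp (𝕜 := 𝕜) (Γ := ℝ)
  refine ⟨Pool.Agent.Lib.MP_ad4c49_an.Sub 𝕜 ℝ, inferInstance, inferInstance,
    Pool.Agent.Lib.MP_ad4c49_an.isClosed_Sub.completeSpace_coe, S.reflexive, fun h => ?_,
    fun Y hY => S.positive Y hY⟩
  obtain ⟨Y, hY, hT⟩ := S.negative
  obtain ⟨T, h⟩ := h Y hY
  exact hT T h

end Pool.Agent.Results.MP_ad4c49_an.ReflexiveExample
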